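import Pool.Agent.R790.Ult.PartA
import Pool.Agent.R790.Ult.PartB

/-! Completions of ray-generated ultrametric spaces and starlike rayless trees. -/

set_option autoImplicit false

namespace Pool.Agent.Results.MP_16b74e_gt.RayStarlikeEquivalence

open Pool.Agent.R790.Ult

universe u

/-- An infinite ultrametric space is the completion of a totally bounded proper subset generated
by a labeled ray if and only if it is compact and generated by a labeled starlike rayless tree. -/
theorem result (X : Type u) [MetricSpace X] [IsUltrametricDist X] [Infinite X] :
    CompletionOfRay X ↔ CompactStarlike X :=
  ⟨partA, partB⟩

end Pool.Agent.Results.MP_16b74e_gt.RayStarlikeEquivalence
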